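import Mathlib

namespace Pool.Agent.R194.XD

open Finset Matrix

/-- integer matrix of binomial coefficients -/
def PM (r : ℕ) (d k : Fin r → ℕ) : Matrix (Fin r) (Fin r) ℤ :=
  Matrix.of fun i j => ((d i).choose (k j) : ℤ)

theorem choose_sub_choose (a b k : ℕ) (hab : a ≤ b) (hk : 1 ≤ k) :
    ((b.choose k : ℤ) - (a.choose k : ℤ)) = ∑ l ∈ Ico a b, ((l.choose (k - 1) : ℕ) : ℤ) := by
  induction b, hab using Nat.le_induction with
  | base => simp
  | succ b hb ih =>
    rw [Finset.sum_Ico_succ_top hb, ← ih]
    obtain ⟨k', rfl⟩ : ∃ k', k = k' + 1 := ⟨k - 1, by omega⟩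
    rw [Nat.choose_succ_succ]
    simp only [Nat.add_sub_cancel]
    push_cast
    ring

theorem pascal_aux : ∀ (r : ℕ) (d k : Fin r → ℕ), StrictMono d → StrictMono k →
    0 ≤ (PM r d k).det ∧ ((∀ s, k s ≤ d s) → 0 < (PM r d k).det) := by
  intro r
  induction r with
  | zero => intro d k _ _; simp
  | succ r ih =>
    suffices H : ∀ (c : ℕ) (d k : Fin (r + 1) → ℕ), StrictMono d → StrictMono k → k 0 = c →
        0 ≤ (PM (r + 1) d k).det ∧ ((∀ s, k s ≤ d s) → 0 < (PM (r + 1) d k).det) by
      intro d k hd hk; exact H _ d k hd hk rfl
    intro c
    induction c with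
    | zero =>
      intro d k hd hk hk0
      set A := PM (r + 1) d k with hA
      let B : Matrix (Fin (r + 1)) (Fin (r + 1)) ℤ :=
        Matrix.of (Fin.cons (A 0) (fun i j => A i.succ j - A (Fin.castSucc i) j))
      have hAB : A.det = B.det := by
        apply Matrix.det_eq_of_forall_row_eq_smul_add_pred (fun _ => 1)
        · intro j; simp [B]
        · intro i j; simp [B]
      let k' : Fin r → ℕ := fun j => k j.succ - 1
      have hkpos : ∀ j : Fin r, 1 ≤ k j.succ := by
        intro j
        have := hk (Fin.succ_pos j)
        omega
      have hk' : StrictMono k' := by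
        intro i j hij
        have h1 := hk (Fin.succ_lt_succ_iff.2 hij)
        have h2 := hkpos i
        simp only [k']; omega
      have hB : B.det = (B.submatrix Fin.succ Fin.succ).det := by
        rw [Matrix.det_succ_column_zero]
        rw [Finset.sum_eq_single 0]
        · have : B 0 0 = 1 := by simp [B, hA, PM, hk0]
          simp [this]
        · intro i _ hi
          obtain ⟨j, rfl⟩ := Fin.exists_succ_eq.2 hi
          have : B j.succ 0 = 0 := by simp [B, hA, PM, hk0]
          simp [this]
        · simp
      have hBe : B.submatrix Fin.succ Fin.succ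
          = fun i => ∑ l ∈ Ico (d i.castSucc) (d i.succ), fun j => (((l.choose (k' j)) : ℕ) : ℤ) := by
        funext i j
        rw [Finset.sum_apply]
        have h := choose_sub_choose (d i.castSucc) (d i.succ) (k j.succ)
          (hd (Fin.castSucc_lt_succ)).le (hkpos j)
        simpa [B, hA, PM, k'] using h
      have hsum : (B.submatrix Fin.succ Fin.succ).det
          = ∑ l ∈ Fintype.piFinset (fun i : Fin r => Ico (d i.castSucc) (d i.succ)),
            (PM r l k').det := by
        rw [hBe]
        have := (Matrix.detRowAlternating (R := ℤ) (n := Fin r)).toMultilinearMap.map_sum_finset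
          (g := fun (_ : Fin r) (l : ℕ) => (fun j => (((l.choose (k' j)) : ℕ) : ℤ) : Fin r → ℤ))
          (A := fun i : Fin r => Ico (d i.castSucc) (d i.succ))
        exact this
      have hl : ∀ l ∈ Fintype.piFinset (fun i : Fin r => Ico (d i.castSucc) (d i.succ)),
          StrictMono l := by
        intro l hl i j hij
        rw [Fintype.mem_piFinset] at hl
        have h1 := Finset.mem_Ico.1 (hl i)
        have h2 := Finset.mem_Ico.1 (hl j)
        have h3 : d i.succ ≤ d j.castSucc := hd.monotone (by
          rw [Fin.le_def]; simp; exact hij)
        omega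
      rw [hAB, hB, hsum]
      refine ⟨Finset.sum_nonneg fun l hl' => (ih l k' (hl l hl') hk').1, fun hkd => ?_⟩
      refine Finset.sum_pos' (fun l hl' => (ih l k' (hl l hl') hk').1)
        ⟨fun i => d i.succ - 1, ?_, ?_⟩
      · rw [Fintype.mem_piFinset]
        intro i
        have h1 := hd (Fin.castSucc_lt_succ (i := i))
        rw [Finset.mem_Ico]; omega
      · refine (ih _ k' (hl _ ?_) hk').2 ?_
        · rw [Fintype.mem_piFinset]
          intro i
          have h1 := hd (Fin.castSucc_lt_succ (i := i))
          rw [Finset.mem_Ico]; omega
        · intro s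
          have := hkd s.succ
          simp only [k']; omega
    | succ c ihc =>
      intro d k hd hk hk0
      have hkpos : ∀ j, 1 ≤ k j := by
        intro j
        have := hk.monotone (Fin.zero_le j)
        omega
      by_cases hd0 : d 0 = 0
      · have hz : (PM (r + 1) d k).det = 0 := by
          apply Matrix.det_eq_zero_of_row_eq_zero 0
          intro j
          have := hkpos j
          simp [PM, hd0, Nat.choose_eq_zero_of_lt this]
        refine ⟨hz.ge, fun h => ?_⟩
        have := h 0
        omega
      · have hdpos : ∀ j, 1 ≤ d j := by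
          intro j
          have := hd.monotone (Fin.zero_le j)
          omega
        let d' : Fin (r + 1) → ℕ := fun i => d i - 1
        let k' : Fin (r + 1) → ℕ := fun i => k i - 1
        have hd' : StrictMono d' := by
          intro i j hij
          have h1 := hd hij
          have h2 := hdpos i
          simp only [d']; omega
        have hk' : StrictMono k' := by
          intro i j hij
          have h1 := hk hij
          have h2 := hkpos i
          simp only [k']; omega
        have key : (∏ i, (k i : ℤ)) * (PM (r + 1) d k).det
            = (∏ i, (d i : ℤ)) * (PM (r + 1) d' k').det := by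
          rw [← Matrix.det_mul_row, ← Matrix.det_mul_column]
          congr 1
          ext i j
          simp only [PM, Matrix.of_apply]
          obtain ⟨a, ha⟩ : ∃ a, d i = a + 1 := ⟨d i - 1, by have := hdpos i; omega⟩
          obtain ⟨b, hb⟩ : ∃ b, k j = b + 1 := ⟨k j - 1, by have := hkpos j; omega⟩
          simp only [d', k', ha, hb, Nat.add_sub_cancel]
          have := Nat.add_one_mul_choose_eq a b
          have h2 : ((b + 1 : ℕ) : ℤ) * ((a + 1).choose (b + 1) : ℤ) = ((a + 1 : ℕ) : ℤ) * (a.choose b : ℤ) := by
            have h3 : (b + 1) * ((a + 1).choose (b + 1)) = (a + 1) * a.choose b := by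
              rw [mul_comm]; exact this.symm
            exact_mod_cast h3
          exact h2
        have hkp : 0 < ∏ i, (k i : ℤ) := Finset.prod_pos fun i _ => by
          have := hkpos i; positivity
        have hdp : 0 < ∏ i, (d i : ℤ) := Finset.prod_pos fun i _ => by
          have := hdpos i; positivity
        have hI := ihc d' k' hd' hk' (by simp only [k']; omega)
        constructor
        · have : 0 ≤ (∏ i, (k i : ℤ)) * (PM (r + 1) d k).det := by
            rw [key]; exact mul_nonneg hdp.le hI.1
          exact nonneg_of_mul_nonneg_right this hkp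
        · intro h
          have h' : ∀ s, k' s ≤ d' s := by
            intro s; have := h s; simp only [k', d']; omega
          have : 0 < (∏ i, (k i : ℤ)) * (PM (r + 1) d k).det := by
            rw [key]; exact mul_pos hdp (hI.2 h')
          exact (mul_pos_iff_of_pos_left hkp).1 this

/-- the determinant of descending factorials does not vanish in characteristic zero -/
theorem det_descFactorial_ne_zero (K : Type*) [Field K] [CharZero K] (r : ℕ) (d k : Fin r → ℕ)
    (hd : StrictMono d) (hk : StrictMono k) (h : ∀ s, k s ≤ d s) :
    (Matrix.of fun i j : Fin r => (((d i).descFactorial (k j) : ℕ) : K)).det ≠ 0 := by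
  have h1 : (Matrix.of fun i j : Fin r => (((d i).descFactorial (k j) : ℕ) : K))
      = Matrix.of fun i j : Fin r => (((k j).factorial : ℕ) : K) *
        ((PM r d k).map (Int.castRingHom K)) i j := by
    ext i j
    simp [PM, Nat.descFactorial_eq_factorial_mul_choose]
  rw [h1, Matrix.det_mul_row]
  apply mul_ne_zero
  · rw [Finset.prod_ne_zero_iff]
    intro i _
    exact_mod_cast (Nat.factorial_ne_zero _)
  · have := RingHom.map_det (Int.castRingHom K) (PM r d k)
    rw [RingHom.mapMatrix_apply] at this
    rw [← this]
    have h2 := (pascal_aux r d k hd hk).2 h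
    simp only [eq_intCast, ne_eq, Int.cast_eq_zero]
    omega

end Pool.Agent.R194.XD
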