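import Mathlib
import Pool.Agent.R194.XD.Pascal

namespace Pool.Agent.R194.XD

open Polynomial Finset

/-- A multiplicity vector: the last entry is zero and a positive entry is followed by the entry
one smaller. -/
def IsMultVector {n : ℕ} (v : Fin (n + 1) → ℕ) : Prop :=
  v (Fin.last n) = 0 ∧ ∀ j : Fin n, 1 ≤ v j.castSucc → v j.succ = v j.castSucc - 1

/-- A multiplicity matrix. -/
def IsMultMatrix {m n : ℕ} (M : Fin m → Fin (n + 1) → ℕ) : Prop :=
  (∀ i, IsMultVector (M i)) ∧ ∀ j : Fin (n + 1), ∑ i, M i j ≤ n - (j : ℕ)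

/-- `F` extends `M` with respect to `Λ`. -/
def Extends {K : Type*} [Field K] {m n : ℕ} (M : Fin m → Fin (n + 1) → ℕ) (Λ : Fin m → K)
    (F : K[X]) : Prop :=
  F ≠ 0 ∧ n ≤ F.natDegree ∧
    ∀ (i : Fin m) (j : Fin (n + 1)), (derivative^[(j : ℕ)] F).rootMultiplicity (Λ i) = M i j

/-- The set of degrees of the polynomials that extend `M`. -/
def extDegrees {K : Type*} [Field K] {m n : ℕ} (M : Fin m → Fin (n + 1) → ℕ) (Λ : Fin m → K) :
    Set ℕ :=
  {N | ∃ F : K[X], Extends M Λ F ∧ F.natDegree = N}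

/-- The combinatorial number attached to `M`: the maximum over `j` of `j` plus the number of
positive entries of `M` in the columns `j, ..., n`. -/
def starDegree {m n : ℕ} (M : Fin m → Fin (n + 1) → ℕ) : ℕ :=
  Finset.univ.sup fun j : Fin (n + 1) =>
    (j : ℕ) + (Finset.univ.filter fun p : Fin m × Fin (n + 1) => j ≤ p.2 ∧ 1 ≤ M p.1 p.2).card

variable {K : Type*} [Field K]

/-- the functional `F ↦ F^{(k)}(λ_i)` -/
noncomputable def phi {m : ℕ} (Λ : Fin m → K) (p : Fin m × ℕ) : K[X] →ₗ[K] K :=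
  (leval (Λ p.1)).comp ((derivative : K[X] →ₗ[K] K[X]) ^ p.2)

theorem phi_apply {m : ℕ} (Λ : Fin m → K) (p : Fin m × ℕ) (F : K[X]) :
    phi Λ p F = (derivative^[p.2] F).eval (Λ p.1) := by
  simp [phi, Module.End.pow_apply, leval_apply]

theorem iterate_ne_zero [CharZero K] {F : K[X]} (hF : F ≠ 0) {j : ℕ} (hj : j ≤ F.natDegree) :
    derivative^[j] F ≠ 0 := by
  intro h
  have h1 : (derivative^[j] F).coeff (F.natDegree - j) = 0 := by rw [h]; simp
  rw [coeff_iterate_derivative, Nat.sub_add_cancel hj, nsmul_eq_mul] at h1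
  rcases mul_eq_zero.1 h1 with h2 | h2
  · have h3 : (F.natDegree).descFactorial j = 0 := by exact_mod_cast h2
    rw [Nat.descFactorial_eq_zero_iff_lt] at h3
    omega
  · rw [coeff_natDegree, leadingCoeff_eq_zero] at h2
    exact hF h2

theorem ext_iff [CharZero K] {m n : ℕ} (M : Fin m → Fin (n + 1) → ℕ)
    (hM : ∀ i, IsMultVector (M i)) (Λ : Fin m → K) (F : K[X]) (hF : F ≠ 0)
    (hn : n ≤ F.natDegree) :
    (∀ (i : Fin m) (j : Fin (n + 1)), (derivative^[(j : ℕ)] F).rootMultiplicity (Λ i) = M i j) ↔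
      ∀ (i : Fin m) (j : Fin (n + 1)), phi Λ (i, (j : ℕ)) F = 0 ↔ 1 ≤ M i j := by
  have hne : ∀ j : Fin (n + 1), derivative^[(j : ℕ)] F ≠ 0 := fun j =>
    iterate_ne_zero hF (by have := j.2; omega)
  constructor
  · intro h i j
    rw [← h i j, phi_apply, Nat.one_le_iff_ne_zero, ← Nat.pos_iff_ne_zero,
      rootMultiplicity_pos (hne j), IsRoot.def]
  · intro h i
    refine Fin.reverseInduction ?_ ?_
    · rw [(hM i).1, rootMultiplicity_eq_zero]
      intro hr
      have h1 := (h i (Fin.last n)).1 (by rw [phi_apply]; exact hr)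
      rw [(hM i).1] at h1
      omega
    · intro j ih
      by_cases hj : 1 ≤ M i j.castSucc
      · have hroot : (derivative^[((j.castSucc : Fin (n + 1)) : ℕ)] F).IsRoot (Λ i) := by
          have h1 := (h i j.castSucc).2 hj
          rw [phi_apply] at h1
          exact h1
        have h2 := derivative_rootMultiplicity_of_root hroot
        have h3 : derivative (derivative^[((j.castSucc : Fin (n + 1)) : ℕ)] F)
            = derivative^[((j.succ : Fin (n + 1)) : ℕ)] F := by
          simpa using (Function.iterate_succ_apply' (⇑(derivative : K[X] →ₗ[K] K[X])) (j : ℕ) F).symm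
        rw [h3, ih, (hM i).2 j hj] at h2
        have h4 := (rootMultiplicity_pos (hne j.castSucc)).2 hroot
        omega
      · have h0 : M i j.castSucc = 0 := by omega
        rw [h0, rootMultiplicity_eq_zero]
        intro hr
        have h1 := (h i j.castSucc).1 (by rw [phi_apply]; exact hr)
        omega

/-- the interpolation condition at degree `N` -/
def CondF {m n : ℕ} (M : Fin m → Fin (n + 1) → ℕ) (Λ : Fin m → K) (N : ℕ) : Prop :=
  ∀ p : Fin m × Fin (n + 1), M p.1 p.2 = 0 → ∃ F ∈ degreeLT K (N + 1),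
    (∀ e : Fin m × Fin (n + 1), 1 ≤ M e.1 e.2 → phi Λ (e.1, (e.2 : ℕ)) F = 0) ∧
      phi Λ (p.1, (p.2 : ℕ)) F ≠ 0

theorem condF_of_ext [CharZero K] {m n : ℕ} (M : Fin m → Fin (n + 1) → ℕ)
    (hM : ∀ i, IsMultVector (M i)) (Λ : Fin m → K) (F : K[X]) (h : Extends M Λ F) :
    CondF M Λ F.natDegree := by
  obtain ⟨h0, hn, h⟩ := h
  rw [ext_iff M hM Λ F h0 hn] at h
  intro p hp
  refine ⟨F, ?_, fun e he => (h e.1 e.2).2 he, fun hz => ?_⟩
  · rw [mem_degreeLT]
    exact lt_of_le_of_lt degree_le_natDegree (by exact_mod_cast Nat.lt_succ_self _)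
  · have := (h p.1 p.2).1 hz
    omega

theorem ext_of_condF [CharZero K] {m n : ℕ} (M : Fin m → Fin (n + 1) → ℕ)
    (hM : ∀ i, IsMultVector (M i)) (Λ : Fin m → K) (N : ℕ) (hN : n ≤ N) (h : CondF M Λ N) :
    ∃ F : K[X], Extends M Λ F ∧ F.natDegree ≤ N := by
  rcases Nat.eq_zero_or_pos m with hm | hm
  · subst hm
    refine ⟨X ^ N, ⟨by simp, by simpa using hN, fun i => i.elim0⟩, by simp⟩
  · let P : Submodule K K[X] := degreeLT K (N + 1) ⊓
      ⨅ e : {e : Fin m × Fin (n + 1) // 1 ≤ M e.1 e.2}, LinearMap.ker (phi Λ (e.1.1, (e.1.2 : ℕ)))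
    obtain ⟨F, hFP, hF⟩ := Module.Dual.exists_forall_mem_ne_zero_of_forall_exists P
      (fun q : {q : Fin m × Fin (n + 1) // M q.1 q.2 = 0} => phi Λ (q.1.1, (q.1.2 : ℕ))) (by
        intro q
        obtain ⟨F, h1, h2, h3⟩ := h q.1 q.2
        refine ⟨F, ?_, h3⟩
        simp only [P, Submodule.mem_inf, Submodule.mem_iInf, LinearMap.mem_ker]
        exact ⟨h1, fun e => h2 e.1 e.2⟩)
    simp only [P, Submodule.mem_inf, Submodule.mem_iInf, LinearMap.mem_ker] at hFP
    have hlast := hF ⟨(⟨0, hm⟩, Fin.last n), (hM _).1⟩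
    have hder : derivative^[n] F ≠ 0 := by
      intro h0
      apply hlast
      rw [phi_apply]
      simp [h0]
    have hF0 : F ≠ 0 := by
      rintro rfl
      simp at hder
    have hdeg : n ≤ F.natDegree := by
      by_contra hlt
      exact hder (iterate_derivative_eq_zero (by omega))
    refine ⟨F, ⟨hF0, hdeg, ?_⟩, ?_⟩
    · rw [ext_iff M hM Λ F hF0 hdeg]
      intro i j
      constructor
      · intro hz
        by_contra hlt
        exact hF ⟨(i, j), by simpa using hlt⟩ hz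
      · intro hz
        exact hFP.2 ⟨(i, j), hz⟩
    · have := mem_degreeLT.1 hFP.1
      rw [degree_eq_natDegree hF0] at this
      have : F.natDegree < N + 1 := by exact_mod_cast this
      omega

theorem isLeast_of_condF [CharZero K] {m n : ℕ} (M : Fin m → Fin (n + 1) → ℕ)
    (hM : ∀ i, IsMultVector (M i)) (Λ : Fin m → K) (N : ℕ)
    (h : IsLeast {N | n ≤ N ∧ CondF M Λ N} N) : IsLeast (extDegrees M Λ) N := by
  obtain ⟨⟨h1, h2⟩, h3⟩ := h
  have hlb : ∀ F : K[X], Extends M Λ F → N ≤ F.natDegree := fun F hF =>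
    h3 ⟨hF.2.1, condF_of_ext M hM Λ F hF⟩
  constructor
  · obtain ⟨F, hF, hd⟩ := ext_of_condF M hM Λ N h1 h2
    exact ⟨F, hF, le_antisymm hd (hlb F hF)⟩
  · rintro N' ⟨F, hF, rfl⟩
    exact hlb F hF

end Pool.Agent.R194.XD
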