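import Mathlib
import Pool.Agent.R194.XD.Basic

namespace Pool.Agent.R194.XD

open Polynomial Finset

variable {K : Type*} [Field K]

/-- counting condition -/
def Cnt {m : ℕ} (E : Finset (Fin m × ℕ)) (D : ℕ) : Prop :=
  ∀ i : ℕ, (E.filter fun e => i ≤ e.2).card ≤ D - i

/-- solvability of the interpolation problem -/
def Ind {m : ℕ} (Λ : Fin m → K) (E : Finset (Fin m × ℕ)) (D : ℕ) : Prop :=
  ∀ y : Fin m × ℕ → K, ∃ F ∈ degreeLT K D, ∀ e ∈ E, phi Λ e F = y e

instance degreeLT_finite (D : ℕ) : Module.Finite K (degreeLT K D) :=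
  Module.Finite.equiv (degreeLTEquiv K D).symm

theorem finrank_degreeLT' (D : ℕ) : Module.finrank K (degreeLT K D) = D := by
  rw [(degreeLTEquiv K D).finrank_eq]; simp

theorem Ind.eq_zero {m : ℕ} {Λ : Fin m → K} {E : Finset (Fin m × ℕ)} {D : ℕ} (h : Ind Λ E D)
    (hE : E.card = D) (F : K[X]) (hF : F ∈ degreeLT K D) (hz : ∀ e ∈ E, phi Λ e F = 0) :
    F = 0 := by
  let T : degreeLT K D →ₗ[K] (E → K) :=
    LinearMap.pi fun e => (phi Λ e.1).comp (degreeLT K D).subtype
  have hs : Function.Surjective T := by
    intro y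
    obtain ⟨G, hG, hG2⟩ := h (fun e => if he : e ∈ E then y ⟨e, he⟩ else 0)
    refine ⟨⟨G, hG⟩, ?_⟩
    ext e
    have := hG2 e.1 e.2
    simp only [e.2, dite_true] at this
    simpa [T] using this
  have hi : Function.Injective T :=
    (LinearMap.injective_iff_surjective_of_finrank_eq_finrank (by
      rw [finrank_degreeLT']; simp [hE])).2 hs
  have : (⟨F, hF⟩ : degreeLT K D) = 0 := by
    apply hi
    ext e
    simpa [T] using hz e.1 e.2
  simpa using congrArg Subtype.val this

/-- positive entries in columns at least `i` -/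
def cEnt {m n : ℕ} (M : Fin m → Fin (n + 1) → ℕ) (i : ℕ) : ℕ :=
  (Finset.univ.filter fun p : Fin m × Fin (n + 1) => i ≤ (p.2 : ℕ) ∧ 1 ≤ M p.1 p.2).card

/-- the set of positive entries -/
def EM {m n : ℕ} (M : Fin m → Fin (n + 1) → ℕ) : Finset (Fin m × ℕ) :=
  (Finset.univ.filter fun p : Fin m × Fin (n + 1) => 1 ≤ M p.1 p.2).image
    fun p => (p.1, (p.2 : ℕ))

theorem mem_EM {m n : ℕ} (M : Fin m → Fin (n + 1) → ℕ) (e : Fin m × ℕ) :
    e ∈ EM M ↔ ∃ j : Fin (n + 1), (j : ℕ) = e.2 ∧ 1 ≤ M e.1 j := by
  simp only [EM, Finset.mem_image, Finset.mem_filter, Finset.mem_univ, true_and]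
  constructor
  · rintro ⟨p, hp, rfl⟩
    exact ⟨p.2, rfl, hp⟩
  · rintro ⟨j, hj, h⟩
    exact ⟨(e.1, j), h, by ext <;> simp [hj]⟩

theorem card_EM_filter {m n : ℕ} (M : Fin m → Fin (n + 1) → ℕ) (i : ℕ) :
    ((EM M).filter fun e => i ≤ e.2).card = cEnt M i := by
  rw [EM, Finset.filter_image, Finset.card_image_of_injective]
  · rw [cEnt, Finset.filter_filter]
    congr 1
    ext p
    simp only [Finset.mem_filter, Finset.mem_univ, true_and]
    tauto
  · intro p q h
    simp only [Prod.mk.injEq] at h
    ext
    · exact congrArg Fin.val h.1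
    · exact h.2

theorem cEnt_zero {m n : ℕ} (M : Fin m → Fin (n + 1) → ℕ) (i : ℕ) (hi : n < i) :
    cEnt M i = 0 := by
  rw [cEnt, Finset.card_eq_zero, Finset.filter_eq_empty_iff]
  rintro p - ⟨h1, -⟩
  have := p.2.2
  omega

theorem le_star {m n : ℕ} (M : Fin m → Fin (n + 1) → ℕ) (i : ℕ) (hi : i ≤ n) :
    i + cEnt M i ≤ starDegree M := by
  have := Finset.le_sup (s := Finset.univ) (f := fun j : Fin (n + 1) =>
    (j : ℕ) + (Finset.univ.filter fun p : Fin m × Fin (n + 1) => j ≤ p.2 ∧ 1 ≤ M p.1 p.2).card)
    (Finset.mem_univ (⟨i, by omega⟩ : Fin (n + 1)))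
  refine le_trans (le_of_eq ?_) this
  rfl

theorem star_le {m n : ℕ} (M : Fin m → Fin (n + 1) → ℕ) (N : ℕ)
    (h : ∀ i, i ≤ n → i + cEnt M i ≤ N) : starDegree M ≤ N := by
  refine Finset.sup_le fun j _ => ?_
  exact h j (by have := j.2; omega)

theorem star_isLeast {m n : ℕ} (M : Fin m → Fin (n + 1) → ℕ)
    (hM : ∀ i, IsMultVector (M i)) (Λ : Fin m → K)
    (hInd : ∀ (E : Finset (Fin m × ℕ)) (D : ℕ), (∀ e ∈ E, e.2 ≤ n) → Cnt E D → Ind Λ E D) :
    IsLeast {N | n ≤ N ∧ CondF M Λ N} (starDegree M) := by
  have hEn : ∀ e ∈ EM M, e.2 ≤ n := by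
    intro e he
    obtain ⟨j, hj, -⟩ := (mem_EM M e).1 he
    have := j.2
    omega
  constructor
  · refine ⟨le_trans (Nat.le_add_right _ _) (le_star M n le_rfl), ?_⟩
    intro p hp
    have hnot : ∀ e ∈ EM M, e ≠ (p.1, (p.2 : ℕ)) := by
      rintro e he rfl
      obtain ⟨j, hj, h1⟩ := (mem_EM M _).1 he
      have : j = p.2 := Fin.ext hj
      rw [this] at h1
      simp only at h1
      omega
    have hc : Cnt (insert (p.1, (p.2 : ℕ)) (EM M)) (starDegree M + 1) := by
      intro i
      rw [Finset.filter_insert]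
      have hp2 := p.2.2
      split_ifs with hi
      · refine le_trans (Finset.card_insert_le _ _) ?_
        rw [card_EM_filter]
        have := le_star M i (by simp only at hi; omega)
        omega
      · rw [card_EM_filter]
        by_cases hin : i ≤ n
        · have := le_star M i hin
          omega
        · rw [cEnt_zero M i (by omega)]; omega
    obtain ⟨F, hF, h⟩ := hInd _ _ (by
      intro e he
      rcases Finset.mem_insert.1 he with rfl | he
      · have := p.2.2; simp only; omega
      · exact hEn e he) hc (fun e => if e = (p.1, (p.2 : ℕ)) then 1 else 0)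
    refine ⟨F, hF, fun e he => ?_, ?_⟩
    · have hm : (e.1, (e.2 : ℕ)) ∈ EM M := (mem_EM M _).2 ⟨e.2, rfl, he⟩
      rw [h _ (Finset.mem_insert_of_mem hm), if_neg (hnot _ hm)]
    · rw [h _ (Finset.mem_insert_self _ _), if_pos rfl]
      exact one_ne_zero
  · rintro N ⟨hnN, hcond⟩
    by_contra hlt
    have hex : ∃ i, i ≤ n ∧ N < i + cEnt M i := by
      by_contra hno
      push_neg at hno
      exact hlt (star_le M N hno)
    let S := (Finset.range (n + 1)).filter fun i => N < i + cEnt M i
    have hS : S.Nonempty := by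
      obtain ⟨i, h1, h2⟩ := hex
      exact ⟨i, by simp [S, h2]; omega⟩
    obtain ⟨hjS, hjmax⟩ : S.max' hS ∈ S ∧ ∀ i ∈ S, i ≤ S.max' hS :=
      ⟨S.max'_mem hS, fun i hi => S.le_max' i hi⟩
    set j := S.max' hS with hj
    have hjn : j ≤ n := by
      have := (Finset.mem_filter.1 hjS).1
      rw [Finset.mem_range] at this; omega
    have hjc : N < j + cEnt M j := (Finset.mem_filter.1 hjS).2
    have hgt : ∀ i, j < i → cEnt M i ≤ N - i := by
      intro i hi
      by_cases hin : i ≤ n
      · by_contra hc
        have : i ∈ S := by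
          simp only [S, Finset.mem_filter, Finset.mem_range]
          omega
        have := hjmax i this
        omega
      · rw [cEnt_zero M i (by omega)]; omega
    have hgt' : cEnt M (j + 1) ≤ N + 1 - j := by
      have := hgt (j + 1) (by omega)
      omega
    obtain ⟨E2, hE2a, hE2b, hE2c⟩ := Finset.exists_subsuperset_card_eq
      (s := (EM M).filter fun e => j + 1 ≤ e.2) (t := (EM M).filter fun e => j ≤ e.2)
      (n := N + 1 - j) (by
        intro e he
        rw [Finset.mem_filter] at he ⊢
        exact ⟨he.1, by omega⟩) (by rw [card_EM_filter]; exact hgt')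
      (by rw [card_EM_filter]; omega)
    let sh : Fin m × ℕ → Fin m × ℕ := fun e => (e.1, e.2 - j)
    have hE2j : ∀ e ∈ E2, j ≤ e.2 ∧ e ∈ EM M := fun e he => by
      have := Finset.mem_filter.1 (hE2b he)
      exact ⟨this.2, this.1⟩
    have hinj : Set.InjOn sh E2 := by
      intro e he f hf hef
      simp only [sh, Prod.mk.injEq] at hef
      have h1 := (hE2j e he).1
      have h2 := (hE2j f hf).1
      ext
      · exact congrArg Fin.val hef.1
      · omega
    have hcard : (E2.image sh).card = N + 1 - j := by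
      rw [Finset.card_image_of_injOn hinj, hE2c]
    have hcnt : Cnt (E2.image sh) (N + 1 - j) := by
      intro i
      rcases Nat.eq_zero_or_pos i with rfl | hi
      · refine le_trans (Finset.card_filter_le _ _) ?_
        rw [hcard]; omega
      · rw [Finset.filter_image]
        refine le_trans Finset.card_image_le ?_
        have : (E2.filter fun a => i ≤ (sh a).2) ⊆ (EM M).filter fun e => i + j ≤ e.2 := by
          intro e he
          rw [Finset.mem_filter] at he ⊢
          have h1 := hE2j e he.1
          refine ⟨h1.2, ?_⟩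
          have := he.2
          simp only [sh] at this
          omega
        refine le_trans (Finset.card_le_card this) ?_
        rw [card_EM_filter]
        have := hgt (i + j) (by omega)
        omega
    have hord : ∀ e ∈ E2.image sh, e.2 ≤ n := by
      intro e he
      obtain ⟨f, hf, rfl⟩ := Finset.mem_image.1 he
      have := hEn f (hE2j f hf).2
      simp only [sh]; omega
    have hI := hInd _ _ hord hcnt
    have hpos : 0 < cEnt M j := by omega
    obtain ⟨p0, -⟩ := Finset.card_pos.1 hpos
    obtain ⟨F, hF, hF1, hF2⟩ := hcond (p0.1, Fin.last n) (hM _).1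
    apply hF2
    have hFdeg : F.natDegree ≤ N := by
      by_cases h0 : F = 0
      · simp [h0]
      · have := mem_degreeLT.1 hF
        rw [degree_eq_natDegree h0] at this
        have : F.natDegree < N + 1 := by exact_mod_cast this
        omega
    have hG : derivative^[j] F = 0 := by
      refine hI.eq_zero hcard _ ?_ ?_
      · rw [mem_degreeLT]
        refine lt_of_le_of_lt degree_le_natDegree ?_
        have := natDegree_iterate_derivative F j
        have h2 : (derivative^[j] F).natDegree < N + 1 - j := by omega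
        exact_mod_cast h2
      · intro e he
        obtain ⟨f, hf, rfl⟩ := Finset.mem_image.1 he
        have h1 := hE2j f hf
        obtain ⟨k, hk, hk2⟩ := (mem_EM M f).1 h1.2
        have h2 := hF1 (f.1, k) hk2
        rw [phi_apply] at h2 ⊢
        simp only [sh]
        rw [← Function.iterate_add_apply, Nat.sub_add_cancel h1.1, ← hk]
        exact h2
    rw [phi_apply]
    have : derivative^[n] F = derivative^[n - j] (derivative^[j] F) := by
      rw [← Function.iterate_add_apply, Nat.sub_add_cancel hjn]
    simp only [Fin.val_last, this, hG, iterate_map_zero, eval_zero]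

end Pool.Agent.R194.XD
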