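import Mathlib
import Pool.Agent.R194.XD.Star

namespace Pool.Agent.R194.XD

open Polynomial Finset

variable {K : Type*} [Field K]

theorem selection (T S : Finset ℕ)
    (h : ∀ j ∈ S, (S.filter fun k => j ≤ k).card ≤ (T.filter fun d => j ≤ d).card) :
    ∃ d k : Fin S.card → ℕ, StrictMono d ∧ StrictMono k ∧ (∀ s, d s ∈ T) ∧ (∀ s, k s ∈ S) ∧
      (∀ x ∈ S, ∃ s, k s = x) ∧ ∀ s, k s ≤ d s := by
  have hle : S.card ≤ T.card := by
    rcases S.eq_empty_or_nonempty with rfl | hS
    · simp
    · have h1 := h _ (S.min'_mem hS)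
      have h2 : (S.filter fun k => S.min' hS ≤ k) = S := by
        rw [Finset.filter_eq_self]
        intro x hx
        exact S.min'_le x hx
      rw [h2] at h1
      exact h1.trans (Finset.card_filter_le _ _)
  let ι : Fin S.card → Fin T.card := fun s => ⟨T.card - S.card + s, by have := s.2; omega⟩
  have hι : StrictMono ι := by
    intro a b hab
    simp only [ι, Fin.mk_lt_mk]
    have : (a : ℕ) < b := hab
    omega
  let kk := S.orderEmbOfFin rfl
  let dd := T.orderEmbOfFin rfl
  refine ⟨fun s => dd (ι s), fun s => kk s, ?_, kk.strictMono, ?_, ?_, ?_, ?_⟩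
  · exact dd.strictMono.comp hι
  · intro s; exact T.orderEmbOfFin_mem rfl _
  · intro s; exact S.orderEmbOfFin_mem rfl _
  · intro x hx
    have : x ∈ Set.range kk := by rw [S.range_orderEmbOfFin rfl]; exact hx
    exact this
  · intro s
    by_contra hlt
    push Not at hlt
    have h1 := h (kk s) (S.orderEmbOfFin_mem rfl _)
    have h2 : S.card - s ≤ (S.filter fun k => kk s ≤ k).card := by
      have h3 : (Finset.Ici s).image kk ⊆ S.filter fun k => kk s ≤ k := by
        intro x hx
        obtain ⟨u, hu, rfl⟩ := Finset.mem_image.1 hx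
        rw [Finset.mem_filter]
        exact ⟨S.orderEmbOfFin_mem rfl _, kk.monotone (Finset.mem_Ici.1 hu)⟩
      have h4 := Finset.card_le_card h3
      rw [Finset.card_image_of_injective _ kk.injective, Fin.card_Ici] at h4
      exact h4
    have h5 : (T.filter fun d => kk s ≤ d).card ≤ T.card - 1 - (ι s : ℕ) := by
      have h3 : (T.filter fun d => kk s ≤ d) ⊆ (Finset.Ioi (ι s)).image dd := by
        intro x hx
        rw [Finset.mem_filter] at hx
        have : x ∈ Set.range dd := by rw [T.range_orderEmbOfFin rfl]; exact hx.1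
        obtain ⟨u, rfl⟩ := this
        refine Finset.mem_image_of_mem _ (Finset.mem_Ioi.2 ?_)
        exact dd.lt_iff_lt.1 (lt_of_lt_of_le hlt hx.2)
      have h4 := Finset.card_le_card h3
      rw [Finset.card_image_of_injective _ dd.injective, Fin.card_Ioi] at h4
      exact h4
    have h6 := s.2
    simp only [ι] at h5
    omega

theorem coeff_prod_le {ι : Type*} (s : Finset ι) (f : ι → K[X]) (d : ι → ℕ)
    (h : ∀ i ∈ s, (f i).natDegree ≤ d i) :
    (∏ i ∈ s, f i).coeff (∑ i ∈ s, d i) = ∏ i ∈ s, (f i).coeff (d i) := by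
  classical
  induction s using Finset.induction_on with
  | empty => simp
  | insert a s ha ih =>
    rw [Finset.prod_insert ha, Finset.sum_insert ha, Finset.prod_insert ha]
    have h1 : (∏ i ∈ s, f i).natDegree ≤ ∑ i ∈ s, d i :=
      (natDegree_prod_le _ _).trans (Finset.sum_le_sum fun i hi => h i (Finset.mem_insert_of_mem hi))
    rw [coeff_mul_add_eq_of_natDegree_le (h a (Finset.mem_insert_self _ _)) h1,
      ih fun i hi => h i (Finset.mem_insert_of_mem hi)]

theorem coeff_det_le {r : ℕ} (A : Matrix (Fin r) (Fin r) K[X]) (d : Fin r → ℕ)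
    (h : ∀ i j, (A i j).natDegree ≤ d i) :
    A.det.coeff (∑ i, d i) = (Matrix.of fun i j => (A i j).coeff (d i)).det := by
  rw [Matrix.det_apply', Matrix.det_apply', finsetSum_coeff]
  refine Finset.sum_congr rfl fun σ _ => ?_
  have h1 : ((((Equiv.Perm.sign σ : ℤˣ) : ℤ) : K[X])) = C ((((Equiv.Perm.sign σ : ℤˣ) : ℤ) : K)) := by
    simp
  rw [h1, coeff_C_mul, ← Equiv.sum_comp σ d, coeff_prod_le _ _ _ (fun i _ => h _ _)]
  simp

theorem wronskian_ne_zero [CharZero K] {r : ℕ} (F : Fin r → K[X]) (d k : Fin r → ℕ)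
    (hd : StrictMono d) (hk : StrictMono k) (hkd : ∀ s, k s ≤ d s) (hF : ∀ s, F s ≠ 0)
    (hFd : ∀ s, (F s).natDegree = d s) :
    (Matrix.of fun s t : Fin r => derivative^[k t] (F s)).det ≠ 0 := by
  intro h0
  let A : Matrix (Fin r) (Fin r) K[X] := Matrix.of fun s t => X ^ (k t) * derivative^[k t] (F s)
  have hA : A.det = 0 := by
    have := Matrix.det_mul_row (fun t : Fin r => (X ^ (k t) : K[X]))
      (Matrix.of fun s t : Fin r => derivative^[k t] (F s))
    rw [h0, mul_zero] at this
    exact this
  have hdeg : ∀ i j, (A i j).natDegree ≤ d i := by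
    intro i j
    simp only [A, Matrix.of_apply]
    by_cases hij : k j ≤ d i
    · refine (natDegree_mul_le).trans ?_
      have := natDegree_iterate_derivative (F i) (k j)
      rw [hFd] at this
      simp only [natDegree_X_pow]
      omega
    · rw [iterate_derivative_eq_zero (by rw [hFd]; omega)]
      simp
  have hc := coeff_det_le A d hdeg
  rw [hA, coeff_zero] at hc
  have hm : (Matrix.of fun i j => (A i j).coeff (d i)) = Matrix.of fun i j : Fin r =>
      (F i).leadingCoeff * (Matrix.of fun i j : Fin r => (((d i).descFactorial (k j) : ℕ) : K)) i j := by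
    ext i j
    simp only [A, Matrix.of_apply, coeff_X_pow_mul']
    split_ifs with hij
    · rw [coeff_iterate_derivative, Nat.sub_add_cancel hij, nsmul_eq_mul, leadingCoeff, hFd,
        mul_comm]
    · rw [Nat.descFactorial_eq_zero_iff_lt.2 (by omega)]
      simp
  rw [hm, Matrix.det_mul_column] at hc
  rcases mul_eq_zero.1 hc.symm with h1 | h1
  · rw [Finset.prod_eq_zero_iff] at h1
    obtain ⟨i, -, hi⟩ := h1
    exact hF i (leadingCoeff_eq_zero.1 hi)
  · exact det_descFactorial_ne_zero K r d k hd hk hkd h1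

theorem exists_eval_ne [CharZero K] {r : ℕ} (F : Fin r → K[X]) (d k : Fin r → ℕ)
    (hd : StrictMono d) (hk : StrictMono k) (hkd : ∀ s, k s ≤ d s) (hF : ∀ s, F s ≠ 0)
    (hFd : ∀ s, (F s).natDegree = d s) :
    ∃ t : K, (Matrix.of fun s u : Fin r => (derivative^[k u] (F s)).eval t).det ≠ 0 := by
  by_contra hno
  push Not at hno
  apply wronskian_ne_zero F d k hd hk hkd hF hFd
  apply Polynomial.funext
  intro t
  have := RingHom.map_det (evalRingHom t)
    (Matrix.of fun s u : Fin r => derivative^[k u] (F s))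
  rw [coe_evalRingHom] at this
  rw [this, eval_zero, ← hno t]
  rfl

end Pool.Agent.R194.XD
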