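import Mathlib
import Pool.Agent.R194.XD.Lead

namespace Pool.Agent.R194.XD

open Polynomial Finset

variable {K : Type*} [Field K]

theorem Ind.mono {m : ℕ} {Λ : Fin m → K} {E : Finset (Fin m × ℕ)} {D D' : ℕ} (h : Ind Λ E D)
    (hD : D ≤ D') : Ind Λ E D' := by
  intro y
  obtain ⟨F, hF, h2⟩ := h y
  exact ⟨F, degreeLT_mono hD hF, h2⟩

/-- polynomials of degree less than `D` killed by `E` -/
noncomputable def KerOn {m : ℕ} (Λ : Fin m → K) (E : Finset (Fin m × ℕ)) (D : ℕ) :
    Submodule K K[X] :=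
  degreeLT K D ⊓ ⨅ e ∈ E, LinearMap.ker (phi Λ e)

theorem mem_KerOn {m : ℕ} (Λ : Fin m → K) (E : Finset (Fin m × ℕ)) (D : ℕ) (F : K[X]) :
    F ∈ KerOn Λ E D ↔ F ∈ degreeLT K D ∧ ∀ e ∈ E, phi Λ e F = 0 := by
  simp only [KerOn, Submodule.mem_inf, Submodule.mem_iInf, LinearMap.mem_ker]

/-- evaluation map -/
noncomputable def TT {m : ℕ} (Λ : Fin m → K) (E : Finset (Fin m × ℕ)) (D : ℕ) :
    degreeLT K D →ₗ[K] (E → K) :=
  LinearMap.pi fun e => (phi Λ e.1).comp (degreeLT K D).subtype

theorem KerOn_eq {m : ℕ} (Λ : Fin m → K) (E : Finset (Fin m × ℕ)) (D : ℕ) :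
    KerOn Λ E D = (LinearMap.ker (TT Λ E D)).map (degreeLT K D).subtype := by
  ext F
  rw [mem_KerOn, Submodule.mem_map]
  constructor
  · rintro ⟨h1, h2⟩
    refine ⟨⟨F, h1⟩, ?_, rfl⟩
    rw [LinearMap.mem_ker]
    ext e
    simpa [TT] using h2 e.1 e.2
  · rintro ⟨G, hG, rfl⟩
    refine ⟨G.2, fun e he => ?_⟩
    rw [LinearMap.mem_ker] at hG
    have := congrFun hG ⟨e, he⟩
    simpa [TT] using this

theorem finrank_KerOn_ge {m : ℕ} (Λ : Fin m → K) (E : Finset (Fin m × ℕ)) (D : ℕ) :
    D ≤ Module.finrank K (KerOn Λ E D) + E.card := by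
  have h1 := LinearMap.finrank_range_add_finrank_ker (TT Λ E D)
  rw [finrank_degreeLT'] at h1
  rw [KerOn_eq, Submodule.finrank_map_subtype_eq]
  have h2 : Module.finrank K (LinearMap.range (TT Λ E D)) ≤ E.card := by
    refine (Submodule.finrank_le _).trans ?_
    simp
  omega

theorem finrank_KerOn_le {m : ℕ} {Λ : Fin m → K} {E : Finset (Fin m × ℕ)} {D : ℕ}
    (h : Ind Λ E D) : Module.finrank K (KerOn Λ E D) + E.card ≤ D := by
  have h1 := LinearMap.finrank_range_add_finrank_ker (TT Λ E D)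
  rw [finrank_degreeLT'] at h1
  rw [KerOn_eq, Submodule.finrank_map_subtype_eq]
  have hs : Function.Surjective (TT Λ E D) := by
    intro y
    obtain ⟨G, hG, hG2⟩ := h (fun e => if he : e ∈ E then y ⟨e, he⟩ else 0)
    refine ⟨⟨G, hG⟩, ?_⟩
    ext e
    have := hG2 e.1 e.2
    simp only [e.2, dite_true] at this
    simpa [TT] using this
  rw [LinearMap.range_eq_top.2 hs, finrank_top] at h1
  simp at h1
  omega

/-- the set of degrees of nonzero elements of `V` below `D` -/
noncomputable def degs (V : Submodule K K[X]) (D : ℕ) : Finset ℕ :=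
  open Classical in (Finset.range D).filter fun d => ∃ F ∈ V, F ≠ 0 ∧ F.natDegree = d

theorem mem_degs (V : Submodule K K[X]) (D d : ℕ) :
    d ∈ degs V D ↔ d < D ∧ ∃ F ∈ V, F ≠ 0 ∧ F.natDegree = d := by
  simp [degs]

instance finite_inf (V : Submodule K K[X]) (j : ℕ) :
    Module.Finite K (V ⊓ degreeLT K j : Submodule K K[X]) :=
  Submodule.finiteDimensional_of_le (inf_le_right : V ⊓ degreeLT K j ≤ degreeLT K j)

theorem degs_step (V : Submodule K K[X]) (j : ℕ) :
    Module.finrank K (V ⊓ degreeLT K (j + 1) : Submodule K K[X]) ≤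
      Module.finrank K (V ⊓ degreeLT K j : Submodule K K[X]) + 1 := by
  set W : Submodule K K[X] := V ⊓ degreeLT K (j + 1)
  let g : W →ₗ[K] K := (lcoeff K j).comp W.subtype
  have h1 := LinearMap.finrank_range_add_finrank_ker g
  have h2 : Module.finrank K (LinearMap.range g) ≤ 1 := by
    refine (Submodule.finrank_le _).trans ?_
    simp
  have h3 : Module.finrank K (LinearMap.ker g) ≤
      Module.finrank K (V ⊓ degreeLT K j : Submodule K K[X]) := by
    rw [← Submodule.finrank_map_subtype_eq W (LinearMap.ker g)]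
    refine Submodule.finrank_mono ?_
    rintro F ⟨G, hG, rfl⟩
    refine ⟨G.2.1, ?_⟩
    have h4 := G.2.2
    simp only [SetLike.mem_coe, LinearMap.mem_ker] at hG
    simp only [g, LinearMap.comp_apply, lcoeff_apply, Submodule.subtype_apply] at hG
    rw [SetLike.mem_coe, mem_degreeLT, degree_lt_iff_coeff_zero] at h4
    rw [SetLike.mem_coe, Submodule.subtype_apply, mem_degreeLT, degree_lt_iff_coeff_zero]
    intro k hk
    rcases Nat.eq_or_lt_of_le hk with rfl | hk
    · exact hG
    · exact h4 k (by omega)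
  omega

theorem degs_step' (V : Submodule K K[X]) (j : ℕ) (h : ∀ F ∈ V, F ≠ 0 → F.natDegree ≠ j) :
    V ⊓ degreeLT K (j + 1) ≤ V ⊓ degreeLT K j := by
  rintro F ⟨h1, h2⟩
  refine ⟨h1, ?_⟩
  rw [SetLike.mem_coe] at *
  by_cases h0 : F = 0
  · rw [h0]; exact Submodule.zero_mem _
  · have h3 := h F h1 h0
    rw [mem_degreeLT, degree_eq_natDegree h0] at h2 ⊢
    have h4 : F.natDegree < j + 1 := by exact_mod_cast h2
    have h5 : F.natDegree < j := by omega
    exact_mod_cast h5

theorem degs_count (V : Submodule K K[X]) (D : ℕ) (hV : V ≤ degreeLT K D) (j : ℕ) (hj : j ≤ D) :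
    Module.finrank K V ≤ Module.finrank K (V ⊓ degreeLT K j : Submodule K K[X]) +
      ((degs V D).filter fun d => j ≤ d).card := by
  induction hj using Nat.decreasingInduction with
  | self => rw [inf_eq_left.2 hV]; omega
  | of_succ j hj ih =>
    refine ih.trans ?_
    by_cases hjd : j ∈ degs V D
    · have h1 : ((degs V D).filter fun d => j ≤ d) =
          insert j ((degs V D).filter fun d => j + 1 ≤ d) := by
        ext x
        simp only [Finset.mem_filter, Finset.mem_insert]
        constructor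
        · rintro ⟨h1, h2⟩
          rcases Nat.eq_or_lt_of_le h2 with h | h
          · exact Or.inl h.symm
          · exact Or.inr ⟨h1, h⟩
        · rintro (rfl | ⟨h1, h2⟩)
          · exact ⟨hjd, le_rfl⟩
          · exact ⟨h1, by omega⟩
      rw [h1, Finset.card_insert_of_notMem (by simp)]
      have := degs_step V j
      omega
    · have h1 := Submodule.finrank_mono (degs_step' V j (by
        intro F hF h0 hd
        exact hjd ((mem_degs V D j).2 ⟨by omega, F, hF, h0, hd⟩)))
      have h2 : ((degs V D).filter fun d => j + 1 ≤ d).card ≤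
          ((degs V D).filter fun d => j ≤ d).card := by
        refine Finset.card_le_card ?_
        intro x hx
        rw [Finset.mem_filter] at hx ⊢
        exact ⟨hx.1, by omega⟩
      omega

theorem removal {m : ℕ} (c : ℕ → ℕ) (w : ℕ) : ∀ A : Finset (Fin m × ℕ),
    (∀ i, (A.filter fun e => i ≤ e.2).card ≤ c i + w) →
    ∃ B ⊆ A, A.card ≤ B.card + w ∧ ∀ i, (B.filter fun e => i ≤ e.2).card ≤ c i := by
  induction w with
  | zero => intro A h; exact ⟨A, subset_rfl, le_rfl, h⟩
  | succ w ih =>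
    intro A h
    rcases A.eq_empty_or_nonempty with rfl | hA
    · exact ⟨∅, subset_rfl, by simp, by simp⟩
    · obtain ⟨e, he, hmax⟩ := A.exists_max_image (fun e => e.2) hA
      obtain ⟨B, hB, h1, h2⟩ := ih (A.erase e) (by
        intro i
        rw [Finset.filter_erase]
        by_cases hi : i ≤ e.2
        · rw [Finset.card_erase_of_mem (Finset.mem_filter.2 ⟨he, hi⟩)]
          have := h i
          omega
        · have : (A.filter fun e => i ≤ e.2) = ∅ := by
            rw [Finset.filter_eq_empty_iff]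
            intro f hf
            have := hmax f hf
            omega
          rw [this]
          simp)
      refine ⟨B, hB.trans (Finset.erase_subset _ _), ?_, h2⟩
      rw [Finset.card_erase_of_mem he] at h1
      omega

theorem ind_of_det {m : ℕ} (Λ : Fin m → K) (E : Finset (Fin m × ℕ)) (D : ℕ) (F : E → K[X])
    (hF : ∀ e, F e ∈ degreeLT K D)
    (h : (Matrix.of fun e e' : E => phi Λ e'.1 (F e)).det ≠ 0) : Ind Λ E D := by
  classical
  intro y
  set A := (Matrix.of fun e e' : E => phi Λ e'.1 (F e)) with hA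
  let c : E → K := Matrix.vecMul (fun e => y e.1) A⁻¹
  refine ⟨∑ e, c e • F e, Submodule.sum_mem _ fun e _ => Submodule.smul_mem _ _ (hF e), ?_⟩
  intro e he
  have h1 : Matrix.vecMul c A = fun e => y e.1 := by
    simp only [c]
    rw [Matrix.vecMul_vecMul, Matrix.nonsing_inv_mul _ (isUnit_iff_ne_zero.2 h), Matrix.vecMul_one]
  have h2 := congrFun h1 ⟨e, he⟩
  rw [map_sum]
  simp only [map_smul]
  simpa [Matrix.vecMul, dotProduct, hA] using h2

/-- generic solvability -/
def GenInd (K : Type*) [Field K] (m : ℕ) (E : Finset (Fin m × ℕ)) (D : ℕ) : Prop :=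
  ∃ Q : MvPolynomial (Fin m) K, Q ≠ 0 ∧ ∀ Λ : Fin m → K, MvPolynomial.eval Λ Q ≠ 0 → Ind Λ E D

theorem genInd_of_point {m : ℕ} (Λ₀ : Fin m → K) (E : Finset (Fin m × ℕ)) (D : ℕ)
    (h : Ind Λ₀ E D) : GenInd K m E D := by
  classical
  choose F hF1 hF2 using fun e : E => h (fun e' => if e' = e.1 then 1 else 0)
  let Q : MvPolynomial (Fin m) K := (Matrix.of fun e e' : E =>
    (Polynomial.aeval (MvPolynomial.X e'.1.1 : MvPolynomial (Fin m) K))
      (derivative^[e'.1.2] (F e))).det
  have hQ : ∀ Λ : Fin m → K, MvPolynomial.eval Λ Q =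
      (Matrix.of fun e e' : E => phi Λ e'.1 (F e)).det := by
    intro Λ
    simp only [Q]
    rw [RingHom.map_det]
    congr 1
    ext e e'
    simp only [RingHom.mapMatrix_apply, Matrix.map_apply, Matrix.of_apply, phi_apply]
    have h1 : (MvPolynomial.eval Λ) ((Polynomial.aeval (MvPolynomial.X e'.1.1 :
        MvPolynomial (Fin m) K)) (derivative^[e'.1.2] (F e))) =
        (MvPolynomial.aeval Λ) ((Polynomial.aeval (MvPolynomial.X e'.1.1 :
        MvPolynomial (Fin m) K)) (derivative^[e'.1.2] (F e))) := by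
      rfl
    rw [h1, ← Polynomial.aeval_algHom_apply, MvPolynomial.aeval_X, Polynomial.coe_aeval_eq_eval]
  refine ⟨Q, ?_, fun Λ hΛ => ?_⟩
  · intro h0
    have h1 := hQ Λ₀
    rw [h0, map_zero] at h1
    have h2 : (Matrix.of fun e e' : E => phi Λ₀ e'.1 (F e)) = 1 := by
      ext e e'
      simp only [Matrix.of_apply]
      rw [hF2 e e'.1 e'.2, Matrix.one_apply]
      by_cases hee : e = e'
      · simp [hee]
      · rw [if_neg hee, if_neg]
        intro h3
        exact hee (Subtype.ext h3.symm)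
    rw [h2, Matrix.det_one] at h1
    exact zero_ne_one h1
  · rw [hQ] at hΛ
    exact ind_of_det Λ E D F hF1 hΛ

end Pool.Agent.R194.XD
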