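import Mathlib
import Pool.Agent.R194.XD.Gen

namespace Pool.Agent.R194.XD

open Polynomial Finset

variable {K : Type*} [Field K]

/-- the part of `E` in the first `m` rows -/
noncomputable def topPart {m : ℕ} (E : Finset (Fin (m + 1) × ℕ)) : Finset (Fin m × ℕ) :=
  E.preimage (fun e => (e.1.castSucc, e.2)) (by
    intro e _ f _ h
    simp only [Prod.mk.injEq, Fin.castSucc_inj] at h
    exact Prod.ext h.1 h.2)

/-- the orders in the last row of `E` -/
noncomputable def lastPart {m : ℕ} (E : Finset (Fin (m + 1) × ℕ)) : Finset ℕ :=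
  E.preimage (fun k => (Fin.last m, k)) (by
    intro e _ f _ h
    simpa using h)

theorem mem_topPart {m : ℕ} (E : Finset (Fin (m + 1) × ℕ)) (e : Fin m × ℕ) :
    e ∈ topPart E ↔ (e.1.castSucc, e.2) ∈ E := by
  rw [topPart, Finset.mem_preimage]

theorem mem_lastPart {m : ℕ} (E : Finset (Fin (m + 1) × ℕ)) (k : ℕ) :
    k ∈ lastPart E ↔ (Fin.last m, k) ∈ E := by
  rw [lastPart, Finset.mem_preimage]

theorem card_parts {m : ℕ} (E : Finset (Fin (m + 1) × ℕ)) (i : ℕ) :
    ((topPart E).filter fun e => i ≤ e.2).card + ((lastPart E).filter fun k => i ≤ k).card ≤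
      (E.filter fun e => i ≤ e.2).card := by
  classical
  have h1 : ((topPart E).filter fun e => i ≤ e.2).card =
      (((topPart E).filter fun e => i ≤ e.2).image fun e => (e.1.castSucc, e.2)).card := by
    rw [Finset.card_image_of_injective]
    intro e f h
    simp only [Prod.mk.injEq, Fin.castSucc_inj] at h
    exact Prod.ext h.1 h.2
  have h2 : ((lastPart E).filter fun k => i ≤ k).card =
      (((lastPart E).filter fun k => i ≤ k).image fun k => (Fin.last m, k)).card := by
    rw [Finset.card_image_of_injective]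
    intro e f h
    simpa using h
  rw [h1, h2, ← Finset.card_union_of_disjoint]
  · refine Finset.card_le_card ?_
    intro x hx
    rw [Finset.mem_union, Finset.mem_image, Finset.mem_image] at hx
    rw [Finset.mem_filter]
    rcases hx with ⟨e, he, rfl⟩ | ⟨k, hk, rfl⟩
    · rw [Finset.mem_filter, mem_topPart] at he
      exact he
    · rw [Finset.mem_filter, mem_lastPart] at hk
      exact hk
  · rw [Finset.disjoint_left]
    intro x hx hx2
    obtain ⟨e, -, rfl⟩ := Finset.mem_image.1 hx
    obtain ⟨k, -, hk⟩ := Finset.mem_image.1 hx2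
    simp only [Prod.mk.injEq] at hk
    exact Fin.castSucc_ne_last _ hk.1.symm

theorem exists_good [CharZero K] {ι : Type*} (s : Finset ι) {m : ℕ}
    (P : ι → (Fin m → K) → Prop)
    (h : ∀ a ∈ s, ∃ Q : MvPolynomial (Fin m) K, Q ≠ 0 ∧ ∀ Λ : Fin m → K,
      MvPolynomial.eval Λ Q ≠ 0 → P a Λ) :
    ∃ Q : MvPolynomial (Fin m) K, Q ≠ 0 ∧ ∀ Λ : Fin m → K,
      MvPolynomial.eval Λ Q ≠ 0 → ∀ a ∈ s, P a Λ := by
  classical
  induction s using Finset.induction_on with
  | empty => exact ⟨1, one_ne_zero, by simp⟩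
  | insert a s ha ih =>
    obtain ⟨Q, hQ, hQ2⟩ := ih fun b hb => h b (Finset.mem_insert_of_mem hb)
    obtain ⟨R, hR, hR2⟩ := h a (Finset.mem_insert_self _ _)
    refine ⟨R * Q, mul_ne_zero hR hQ, fun Λ hΛ b hb => ?_⟩
    rw [map_mul] at hΛ
    rcases Finset.mem_insert.1 hb with rfl | hb
    · exact hR2 Λ (left_ne_zero_of_mul hΛ)
    · exact hQ2 Λ (right_ne_zero_of_mul hΛ) b hb

theorem exists_point [CharZero K] {m : ℕ} (Q : MvPolynomial (Fin m) K) (hQ : Q ≠ 0) :
    ∃ Λ : Fin m → K, MvPolynomial.eval Λ Q ≠ 0 := by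
  by_contra hno
  push Not at hno
  apply hQ
  apply MvPolynomial.funext
  intro Λ
  rw [hno Λ, map_zero]

theorem phi_snoc_castSucc {m : ℕ} (Λ : Fin m → K) (t : K) (i : Fin m) (k : ℕ) (F : K[X]) :
    phi (Fin.snoc Λ t : Fin (m + 1) → K) (i.castSucc, k) F = phi Λ (i, k) F := by
  rw [phi_apply, phi_apply]
  simp

theorem phi_snoc_last {m : ℕ} (Λ : Fin m → K) (t : K) (k : ℕ) (F : K[X]) :
    phi (Fin.snoc Λ t : Fin (m + 1) → K) (Fin.last m, k) F = (derivative^[k] F).eval t := by
  rw [phi_apply]
  simp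

theorem genInd_of_cnt [CharZero K] (m : ℕ) : ∀ (E : Finset (Fin m × ℕ)) (D : ℕ), Cnt E D →
    GenInd K m E D := by
  classical
  induction m with
  | zero =>
    intro E D _
    refine ⟨1, one_ne_zero, fun Λ _ y => ⟨0, Submodule.zero_mem _, fun e _ => e.1.elim0⟩⟩
  | succ m ih =>
    intro E D hE
    set E' := topPart E with hE'
    set S := lastPart E with hS
    have hcard : ∀ i, (E'.filter fun e => i ≤ e.2).card + (S.filter fun k => i ≤ k).card ≤ D - i :=
      fun i => (card_parts E i).trans (hE i)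
    have hE'cnt : Cnt E' D := fun i => by have := hcard i; omega
    -- the sets `B j`
    have hB : ∀ j ∈ S, ∃ B ⊆ E', E'.card ≤ B.card + (D - j - (S.filter fun k => j ≤ k).card) ∧
        Cnt B j := by
      intro j hj
      refine removal (fun i => j - i) _ E' ?_
      intro i
      have hSj : 1 ≤ (S.filter fun k => j ≤ k).card :=
        Finset.card_pos.2 ⟨j, Finset.mem_filter.2 ⟨hj, le_rfl⟩⟩
      have hcj := hcard j
      have hci := hcard i
      rcases le_total i j with hij | hij
      · have h1 : (S.filter fun k => j ≤ k).card ≤ (S.filter fun k => i ≤ k).card := by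
          refine Finset.card_le_card ?_
          intro x hx
          rw [Finset.mem_filter] at hx ⊢
          exact ⟨hx.1, hij.trans hx.2⟩
        omega
      · have h1 : (E'.filter fun e => i ≤ e.2).card ≤ (E'.filter fun e => j ≤ e.2).card := by
          refine Finset.card_le_card ?_
          intro x hx
          rw [Finset.mem_filter] at hx ⊢
          exact ⟨hx.1, hij.trans hx.2⟩
        omega
    choose! B hB1 hB2 hB3 using hB
    obtain ⟨Q1, hQ1, hQ1'⟩ := ih E' D hE'cnt
    obtain ⟨Q2, hQ2, hQ2'⟩ := exists_good S (fun j Λ => Ind (K := K) Λ (B j) j)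
      (fun j hj => ih (B j) j (hB3 j hj))
    obtain ⟨Λ, hΛ⟩ := exists_point (Q1 * Q2) (mul_ne_zero hQ1 hQ2)
    rw [map_mul] at hΛ
    have hInd1 : Ind Λ E' D := hQ1' Λ (left_ne_zero_of_mul hΛ)
    have hInd2 : ∀ j ∈ S, Ind Λ (B j) j := hQ2' Λ (right_ne_zero_of_mul hΛ)
    set V := KerOn Λ E' D with hV
    have hVD : V ≤ degreeLT K D := inf_le_left
    have hcount : ∀ j ∈ S, (S.filter fun k => j ≤ k).card ≤
        ((degs V D).filter fun d => j ≤ d).card := by
      intro j hj
      have hSj : 1 ≤ (S.filter fun k => j ≤ k).card :=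
        Finset.card_pos.2 ⟨j, Finset.mem_filter.2 ⟨hj, le_rfl⟩⟩
      have hcj := hcard j
      have hjD : j ≤ D := by omega
      have h1 := degs_count V D hVD j hjD
      have h2 := finrank_KerOn_ge Λ E' D
      have h3 := finrank_KerOn_le (hInd2 j hj)
      have h4 : Module.finrank K (V ⊓ degreeLT K j : Submodule K K[X]) ≤
          Module.finrank K (KerOn Λ (B j) j) := by
        have : Module.Finite K (KerOn Λ (B j) j) :=
          Submodule.finiteDimensional_of_le (inf_le_left : KerOn Λ (B j) j ≤ degreeLT K j)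
        refine Submodule.finrank_mono ?_
        rintro F ⟨hF1, hF2⟩
        rw [SetLike.mem_coe, hV, mem_KerOn] at hF1
        rw [mem_KerOn]
        exact ⟨hF2, fun e he => hF1.2 e (hB1 j hj he)⟩
      have h5 := hB2 j hj
      rw [← hV] at h2
      omega
    obtain ⟨d, k, hd, hk, hdT, hkS, hkall, hkd⟩ := selection (degs V D) S hcount
    have hF : ∀ s, ∃ F ∈ V, F ≠ 0 ∧ F.natDegree = d s := fun s =>
      ((mem_degs V D (d s)).1 (hdT s)).2
    choose F hFV hF0 hFd using hF
    obtain ⟨t, ht⟩ := exists_eval_ne F d k hd hk hkd hF0 hFd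
    apply genInd_of_point (Fin.snoc Λ t : Fin (m + 1) → K) E D
    intro y
    obtain ⟨G, hG, hG2⟩ := hInd1 (fun e => y (e.1.castSucc, e.2))
    set A := (Matrix.of fun s u : Fin S.card => (derivative^[k u] (F s)).eval t) with hA
    let b : Fin S.card → K := fun u => y (Fin.last m, k u) - (derivative^[k u] G).eval t
    let c : Fin S.card → K := Matrix.vecMul b A⁻¹
    have hc : Matrix.vecMul c A = b := by
      simp only [c]
      rw [Matrix.vecMul_vecMul, Matrix.nonsing_inv_mul _ (isUnit_iff_ne_zero.2 ht),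
        Matrix.vecMul_one]
    have hFV' : ∀ s, F s ∈ degreeLT K D ∧ ∀ e ∈ E', phi Λ e (F s) = 0 := fun s =>
      (mem_KerOn Λ E' D (F s)).1 (hFV s)
    refine ⟨G + ∑ s, c s • F s, Submodule.add_mem _ hG
      (Submodule.sum_mem _ fun s _ => Submodule.smul_mem _ _ (hFV' s).1), ?_⟩
    rintro ⟨i, q⟩ he
    rw [map_add, map_sum]
    simp only [map_smul]
    refine Fin.lastCases (motive := fun i => (i, q) ∈ E →
      (phi (Fin.snoc Λ t : Fin (m + 1) → K) (i, q)) G +
        ∑ x, c x • (phi (Fin.snoc Λ t : Fin (m + 1) → K) (i, q)) (F x) = y (i, q)) ?_ ?_ i he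
    · intro he
      have hq : q ∈ S := (mem_lastPart E q).2 he
      obtain ⟨u, rfl⟩ := hkall q hq
      simp only [phi_snoc_last]
      have h2 := congrFun hc u
      simp only [Matrix.vecMul, dotProduct, hA, Matrix.of_apply, b] at h2
      simp only [smul_eq_mul]
      rw [h2]
      ring
    · intro i he
      have hq : (i, q) ∈ E' := (mem_topPart E (i, q)).2 he
      simp only [phi_snoc_castSucc]
      rw [hG2 (i, q) hq]
      rw [Finset.sum_eq_zero]
      · rw [add_zero]
      · intro s _
        rw [(hFV' s).2 (i, q) hq, smul_zero]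

end Pool.Agent.R194.XD
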