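import Mathlib
import Pool.Agent.R194.XD.Gen2

namespace Pool.Agent.R194.XD

open Polynomial Finset

variable {K : Type*} [Field K]

theorem genInd_all [CharZero K] {m : ℕ} (E : Finset (Fin m × ℕ)) :
    ∃ Q : MvPolynomial (Fin m) K, Q ≠ 0 ∧ ∀ Λ : Fin m → K, MvPolynomial.eval Λ Q ≠ 0 →
      ∀ D, Cnt E D → Ind Λ E D := by
  classical
  by_cases h : ∃ D, Cnt E D
  · obtain ⟨Q, hQ, hQ2⟩ := genInd_of_cnt (K := K) m E (Nat.find h) (Nat.find_spec h)
    exact ⟨Q, hQ, fun Λ hΛ D hD => (hQ2 Λ hΛ).mono (Nat.find_min' h hD)⟩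
  · exact ⟨1, one_ne_zero, fun Λ _ D hD => absurd ⟨D, hD⟩ h⟩

theorem generic_ind [CharZero K] (m n : ℕ) :
    ∃ Q : MvPolynomial (Fin m) K, Q ≠ 0 ∧ ∀ Λ : Fin m → K, MvPolynomial.eval Λ Q ≠ 0 →
      ∀ (E : Finset (Fin m × ℕ)) (D : ℕ), (∀ e ∈ E, e.2 ≤ n) → Cnt E D → Ind Λ E D := by
  classical
  obtain ⟨Q, hQ, hQ2⟩ := exists_good (K := K)
    (Finset.powerset ((Finset.univ : Finset (Fin m)) ×ˢ Finset.range (n + 1)))
    (fun E (Λ : Fin m → K) => ∀ D, Cnt E D → Ind Λ E D) (fun E _ => genInd_all E)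
  refine ⟨Q, hQ, fun Λ hΛ E D hE hD => hQ2 Λ hΛ E ?_ D hD⟩
  rw [Finset.mem_powerset]
  intro e he
  rw [Finset.mem_product, Finset.mem_range]
  exact ⟨Finset.mem_univ _, Nat.lt_succ_of_le (hE e he)⟩

theorem generic_star [CharZero K] (m n : ℕ) :
    ∃ Q : MvPolynomial (Fin m) K, Q ≠ 0 ∧ ∀ Λ : Fin m → K, MvPolynomial.eval Λ Q ≠ 0 →
      ∀ M : Fin m → Fin (n + 1) → ℕ, IsMultMatrix M →
        IsLeast (extDegrees M Λ) (starDegree M) := by
  obtain ⟨Q, hQ, hQ2⟩ := generic_ind (K := K) m n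
  exact ⟨Q, hQ, fun Λ hΛ M hM => isLeast_of_condF M hM.1 Λ _ (star_isLeast M hM.1 Λ (hQ2 Λ hΛ))⟩

theorem iterate_derivative_affine (G : K[X]) (a b : K) (k : ℕ) :
    derivative^[k] (G.comp (C a * X + C b)) = C (a ^ k) * (derivative^[k] G).comp (C a * X + C b) := by
  induction k with
  | zero => simp
  | succ k ih =>
    rw [Function.iterate_succ_apply', ih, derivative_C_mul, derivative_comp,
      Function.iterate_succ_apply']
    simp only [derivative_add, derivative_C_mul, derivative_X, derivative_C, mul_one, add_zero,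
      pow_succ, C_mul]
    ring

theorem Ind.affine {m : ℕ} {Λ : Fin m → K} {E : Finset (Fin m × ℕ)} {D : ℕ} (h : Ind Λ E D)
    (a b : K) (ha : a ≠ 0) : Ind (fun i => a * Λ i + b) E D := by
  intro y
  obtain ⟨G, hG, hG2⟩ := h (fun e => a ^ e.2 * y e)
  refine ⟨G.comp (C a⁻¹ * X + C (-(a⁻¹ * b))), ?_, ?_⟩
  · by_cases h0 : G = 0
    · rw [h0]; simp
    · by_cases h1 : G.comp (C a⁻¹ * X + C (-(a⁻¹ * b))) = 0
      · rw [h1]; exact Submodule.zero_mem _
      · rw [mem_degreeLT, degree_eq_natDegree h1]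
        rw [mem_degreeLT, degree_eq_natDegree h0] at hG
        have h2 := natDegree_comp_le (p := G) (q := C a⁻¹ * X + C (-(a⁻¹ * b)))
        have h3 : (C a⁻¹ * X + C (-(a⁻¹ * b))).natDegree ≤ 1 := natDegree_linear_le
        have h4 : G.natDegree < D := by exact_mod_cast hG
        have h5 : (G.comp (C a⁻¹ * X + C (-(a⁻¹ * b)))).natDegree < D := by
          refine lt_of_le_of_lt (h2.trans ?_) h4
          calc _ ≤ G.natDegree * 1 := Nat.mul_le_mul_left _ h3
            _ = _ := mul_one _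
        exact_mod_cast h5
  · intro e he
    have h1 := hG2 e he
    rw [phi_apply] at h1 ⊢
    rw [iterate_derivative_affine]
    simp only [eval_mul, eval_C, eval_comp, eval_add, eval_X]
    have h2 : a⁻¹ * (a * Λ e.1 + b) + -(a⁻¹ * b) = Λ e.1 := by
      field_simp
      ring
    rw [h2, h1, inv_pow, ← mul_assoc, inv_mul_cancel₀ (pow_ne_zero _ ha), one_mul]

theorem small_ind [CharZero K] {m : ℕ} (hm : m ≤ 2) (Λ : Fin m → K)
    (hΛ : Function.Injective Λ) (E : Finset (Fin m × ℕ)) (D : ℕ) (h : Cnt E D) : Ind Λ E D := by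
  obtain ⟨Q, hQ, hQ2⟩ := genInd_of_cnt (K := K) m E D h
  interval_cases m
  · intro y
    exact ⟨0, Submodule.zero_mem _, fun e _ => e.1.elim0⟩
  · obtain ⟨Λ0, hΛ0⟩ := exists_point Q hQ
    have h1 := (hQ2 Λ0 hΛ0).affine 1 (Λ 0 - Λ0 0) one_ne_zero
    have h2 : (fun i => 1 * Λ0 i + (Λ 0 - Λ0 0)) = Λ := by
      ext i
      fin_cases i
      simp
    rw [h2] at h1
    exact h1
  · have hQ' : Q * (MvPolynomial.X 0 - MvPolynomial.X 1) ≠ 0 := by
      refine mul_ne_zero hQ ?_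
      rw [sub_ne_zero]
      intro h
      have := MvPolynomial.X_injective h
      simp at this
    obtain ⟨Λ0, hΛ0⟩ := exists_point _ hQ'
    simp only [map_mul, map_sub, MvPolynomial.eval_X] at hΛ0
    have h0 : Λ0 0 - Λ0 1 ≠ 0 := right_ne_zero_of_mul hΛ0
    have h3 : Λ 0 - Λ 1 ≠ 0 := by
      rw [sub_ne_zero]
      intro h
      have := hΛ h
      simp at this
    have h1 := (hQ2 Λ0 (left_ne_zero_of_mul hΛ0)).affine ((Λ 0 - Λ 1) / (Λ0 0 - Λ0 1))
      (Λ 0 - (Λ 0 - Λ 1) / (Λ0 0 - Λ0 1) * Λ0 0) (div_ne_zero h3 h0)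
    have h2 : (fun i => (Λ 0 - Λ 1) / (Λ0 0 - Λ0 1) * Λ0 i +
        (Λ 0 - (Λ 0 - Λ 1) / (Λ0 0 - Λ0 1) * Λ0 0)) = Λ := by
      ext i
      fin_cases i
      · simp
      · simp only [Fin.mk_one, Fin.isValue]
        field_simp
        ring
    rw [h2] at h1
    exact h1

theorem small_star [CharZero K] {m n : ℕ} (hm : m ≤ 2) (M : Fin m → Fin (n + 1) → ℕ)
    (hM : IsMultMatrix M) (Λ : Fin m → K) (hΛ : Function.Injective Λ) :
    IsLeast (extDegrees M Λ) (starDegree M) :=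
  isLeast_of_condF M hM.1 Λ _ (star_isLeast M hM.1 Λ fun E D _ h => small_ind hm Λ hΛ E D h)

/-- Hermite interpolation -/
theorem hermite [CharZero K] {m n : ℕ} (Λ : Fin m → K) (hΛ : Function.Injective Λ) :
    Ind Λ ((Finset.univ : Finset (Fin m)) ×ˢ Finset.range (n + 1)) (m * (n + 1)) := by
  classical
  set E := (Finset.univ : Finset (Fin m)) ×ˢ Finset.range (n + 1) with hE
  have hcard : E.card = m * (n + 1) := by
    rw [hE, Finset.card_product]; simp
  have hinj : Function.Injective (TT Λ E (m * (n + 1))) := by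
    rw [← LinearMap.ker_eq_bot, LinearMap.ker_eq_bot']
    rintro ⟨F, hF⟩ h0
    have h1 : ∀ i : Fin m, ∀ k ≤ n, (derivative^[k] F).IsRoot (Λ i) := by
      intro i k hk
      have hm : (i, k) ∈ E := by
        rw [hE, Finset.mem_product, Finset.mem_range]
        exact ⟨Finset.mem_univ _, Nat.lt_succ_of_le hk⟩
      have h2 := congrFun h0 ⟨(i, k), hm⟩
      simp only [TT, LinearMap.pi_apply, LinearMap.comp_apply, Submodule.subtype_apply,
        Pi.zero_apply, phi_apply] at h2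
      exact h2
    by_contra hne
    have hF0 : F ≠ 0 := fun h => hne (Subtype.ext h)
    have h3 : ∀ i : Fin m, (X - C (Λ i)) ^ (n + 1) ∣ F := fun i =>
      (le_rootMultiplicity_iff hF0).1 (lt_rootMultiplicity_of_isRoot_iterate_derivative hF0 (h1 i))
    have h4 : ∏ i : Fin m, (X - C (Λ i)) ^ (n + 1) ∣ F := by
      refine Finset.prod_dvd_of_coprime ?_ fun i _ => h3 i
      intro i _ j _ hij
      exact (pairwise_coprime_X_sub_C hΛ hij).pow
    have h5 := natDegree_le_of_dvd h4 hF0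
    rw [natDegree_prod _ _ (fun i _ => pow_ne_zero _ (X_sub_C_ne_zero _))] at h5
    simp only [natDegree_pow, natDegree_X_sub_C, mul_one, Finset.sum_const, Finset.card_univ,
      Fintype.card_fin, smul_eq_mul] at h5
    rw [mem_degreeLT, degree_eq_natDegree hF0] at hF
    have h6 : F.natDegree < m * (n + 1) := by exact_mod_cast hF
    omega
  have hs : Function.Surjective (TT Λ E (m * (n + 1))) :=
    (LinearMap.injective_iff_surjective_of_finrank_eq_finrank (by
      rw [finrank_degreeLT']; simp [hcard])).1 hinj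
  intro y
  obtain ⟨F, hF⟩ := hs (fun e => y e.1)
  refine ⟨F.1, F.2, fun e he => ?_⟩
  have := congrFun hF ⟨e, he⟩
  simpa [TT] using this

theorem exists_condF [CharZero K] {m n : ℕ} (M : Fin m → Fin (n + 1) → ℕ) (Λ : Fin m → K)
    (hΛ : Function.Injective Λ) : CondF M Λ (m * (n + 1)) := by
  classical
  intro p hp
  obtain ⟨F, hF, h⟩ := (hermite (n := n) Λ hΛ).mono (Nat.le_succ _)
    (fun e => if e = (p.1, (p.2 : ℕ)) then 1 else 0)
  have hmem : ∀ e : Fin m × Fin (n + 1), (e.1, (e.2 : ℕ)) ∈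
      ((Finset.univ : Finset (Fin m)) ×ˢ Finset.range (n + 1)) := by
    intro e
    rw [Finset.mem_product, Finset.mem_range]
    exact ⟨Finset.mem_univ _, e.2.2⟩
  refine ⟨F, hF, fun e he => ?_, ?_⟩
  · rw [h _ (hmem e), if_neg]
    intro h2
    simp only [Prod.mk.injEq] at h2
    have h3 : e = p := Prod.ext h2.1 (Fin.ext h2.2)
    rw [h3] at he
    omega
  · rw [h _ (hmem p), if_pos rfl]
    exact one_ne_zero

end Pool.Agent.R194.XD
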