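import Mathlib
import Pool.Agent.R194.XD.Gen3

namespace Pool.Agent.R194.XD

open Polynomial Finset

variable {K : Type*} [Field K]

/-- The row vector of the functional `F ↦ F^{(k)}(λ_i)` on polynomials of degree at most `N`:
its entry at `d` is the value at `λ_i` of the `k`-th derivative of `x ^ d`. -/
def jetRow {m n : ℕ} (Λ : Fin m → K) (N : ℕ) (p : Fin m × Fin (n + 1)) : Fin (N + 1) → K :=
  fun d => (((d : ℕ).descFactorial p.2 : ℕ) : K) * Λ p.1 ^ ((d : ℕ) - (p.2 : ℕ))

/-- The numbers `N ≥ n` for which no row vector of a zero entry of `M` is in the span of the row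
vectors of the positive entries of `M`. -/
def rankDegrees {m n : ℕ} (M : Fin m → Fin (n + 1) → ℕ) (Λ : Fin m → K) : Set ℕ :=
  {N | n ≤ N ∧ ∀ p : Fin m × Fin (n + 1), M p.1 p.2 = 0 →
    jetRow Λ N p ∉ Submodule.span K (jetRow Λ N '' {e | 1 ≤ M e.1 e.2})}

/-- the polynomial with given coefficients -/
noncomputable def polyOf {N : ℕ} (a : Fin (N + 1) → K) : K[X] := ∑ d : Fin (N + 1), C (a d) * X ^ (d : ℕ)

theorem polyOf_mem {N : ℕ} (a : Fin (N + 1) → K) : polyOf a ∈ degreeLT K (N + 1) := by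
  refine Submodule.sum_mem _ fun d _ => ?_
  rw [mem_degreeLT]
  refine lt_of_le_of_lt (degree_C_mul_X_pow_le _ _) ?_
  have := d.2
  exact_mod_cast this

theorem phi_polyOf {m n N : ℕ} (Λ : Fin m → K) (p : Fin m × Fin (n + 1)) (a : Fin (N + 1) → K) :
    phi Λ (p.1, (p.2 : ℕ)) (polyOf a) = ∑ d, a d * jetRow Λ N p d := by
  rw [polyOf, map_sum]
  refine Finset.sum_congr rfl fun d _ => ?_
  rw [phi_apply, iterate_derivative_C_mul, iterate_derivative_X_pow_eq_natCast_mul]
  simp [jetRow]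

theorem exists_polyOf {N : ℕ} (F : K[X]) (hF : F ∈ degreeLT K (N + 1)) :
    ∃ a : Fin (N + 1) → K, polyOf a = F := by
  refine ⟨fun d => F.coeff d, ?_⟩
  have h : F.natDegree < N + 1 := by
    by_cases h0 : F = 0
    · simp [h0]
    · rw [mem_degreeLT, degree_eq_natDegree h0] at hF
      exact_mod_cast hF
  conv_rhs => rw [F.as_sum_range_C_mul_X_pow' h]
  rw [polyOf, Finset.sum_range]

theorem condF_iff {m n : ℕ} (M : Fin m → Fin (n + 1) → ℕ) (Λ : Fin m → K) (N : ℕ) :
    CondF M Λ N ↔ ∀ p : Fin m × Fin (n + 1), M p.1 p.2 = 0 →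
      jetRow Λ N p ∉ Submodule.span K (jetRow Λ N '' {e | 1 ≤ M e.1 e.2}) := by
  constructor
  · intro h p hp hmem
    obtain ⟨F, hF, h1, h2⟩ := h p hp
    obtain ⟨a, rfl⟩ := exists_polyOf F hF
    let f : (Fin (N + 1) → K) →ₗ[K] K := ∑ d, a d • LinearMap.proj d
    have hf : ∀ e : Fin m × Fin (n + 1), f (jetRow Λ N e) = phi Λ (e.1, (e.2 : ℕ)) (polyOf a) := by
      intro e
      rw [phi_polyOf]
      simp [f]
    have h3 : Submodule.span K (jetRow Λ N '' {e | 1 ≤ M e.1 e.2}) ≤ LinearMap.ker f := by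
      rw [Submodule.span_le]
      rintro _ ⟨e, he, rfl⟩
      rw [SetLike.mem_coe, LinearMap.mem_ker, hf]
      exact h1 e he
    apply h2
    rw [← hf]
    exact h3 hmem
  · intro h p hp
    obtain ⟨f, hf1, hf2⟩ := Submodule.exists_le_ker_of_notMem (h p hp)
    let a : Fin (N + 1) → K := fun d => f (Pi.single d 1)
    have hf : ∀ e : Fin m × Fin (n + 1), f (jetRow Λ N e) = phi Λ (e.1, (e.2 : ℕ)) (polyOf a) := by
      intro e
      rw [phi_polyOf, LinearMap.pi_apply_eq_sum_univ f]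
      refine Finset.sum_congr rfl fun d _ => ?_
      rw [smul_eq_mul, mul_comm]
      congr 2
      ext u
      simp [Pi.single_apply, eq_comm]
    refine ⟨polyOf a, polyOf_mem a, fun e he => ?_, ?_⟩
    · rw [← hf]
      exact hf2 (Submodule.subset_span ⟨e, he, rfl⟩)
    · rw [← hf]
      exact hf1

theorem span_isLeast [CharZero K] {m n : ℕ} (M : Fin m → Fin (n + 1) → ℕ)
    (hM : IsMultMatrix M) (Λ : Fin m → K) (hΛ : Function.Injective Λ) :
    ∃ N, IsLeast (extDegrees M Λ) N ∧ IsLeast (rankDegrees M Λ) N := by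
  classical
  have hset : rankDegrees M Λ = {N | n ≤ N ∧ CondF M Λ N} := by
    ext N
    simp only [rankDegrees, Set.mem_setOf_eq, condF_iff]
  have hne : ∃ N, n ≤ N ∧ CondF M Λ N := by
    rcases Nat.eq_zero_or_pos m with rfl | hm
    · exact ⟨n, le_rfl, fun p => p.1.elim0⟩
    · refine ⟨m * (n + 1), ?_, exists_condF M Λ hΛ⟩
      nlinarith
  have hl : IsLeast {N | n ≤ N ∧ CondF M Λ N} (Nat.find hne) :=
    ⟨Nat.find_spec hne, fun N hN => Nat.find_min' hne hN⟩
  exact ⟨Nat.find hne, isLeast_of_condF M hM.1 Λ _ hl, by rw [hset]; exact hl⟩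

end Pool.Agent.R194.XD
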