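import Mathlib
import Pool.Agent.R194.XD.Span

namespace Pool.Agent.R194.XD

open Polynomial Finset

variable {K : Type*} [Field K]

/-- the set of pairs `(i, l)` with `l < r i` -/
def HE {m : ℕ} (r : Fin m → ℕ) : Finset (Fin m × ℕ) :=
  ((Finset.univ : Finset (Fin m)).sigma fun i => Finset.range (r i)).image fun x => (x.1, x.2)

theorem mem_HE {m : ℕ} (r : Fin m → ℕ) (e : Fin m × ℕ) : e ∈ HE r ↔ e.2 < r e.1 := by
  rw [HE, Finset.mem_image]
  constructor
  · rintro ⟨x, hx, rfl⟩
    rw [Finset.mem_sigma, Finset.mem_range] at hx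
    exact hx.2
  · intro h
    exact ⟨⟨e.1, e.2⟩, by rw [Finset.mem_sigma, Finset.mem_range]; exact ⟨Finset.mem_univ _, h⟩, rfl⟩

theorem card_HE {m : ℕ} (r : Fin m → ℕ) : (HE r).card = ∑ i, r i := by
  rw [HE, Finset.card_image_of_injective, Finset.card_sigma]
  · simp
  · rintro ⟨a, b⟩ ⟨c, d⟩ h
    simp only [Prod.mk.injEq] at h
    obtain ⟨rfl, rfl⟩ := h
    rfl

/-- Hermite interpolation with prescribed orders -/
theorem hermite' [CharZero K] {m : ℕ} (Λ : Fin m → K) (hΛ : Function.Injective Λ)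
    (r : Fin m → ℕ) : Ind Λ (HE r) (∑ i, r i) := by
  classical
  have hinj : Function.Injective (TT Λ (HE r) (∑ i, r i)) := by
    rw [← LinearMap.ker_eq_bot, LinearMap.ker_eq_bot']
    rintro ⟨F, hF⟩ h0
    have h1 : ∀ i : Fin m, ∀ k < r i, (derivative^[k] F).IsRoot (Λ i) := by
      intro i k hk
      have hm : (i, k) ∈ HE r := (mem_HE r _).2 hk
      have h2 := congrFun h0 ⟨(i, k), hm⟩
      simp only [TT, LinearMap.pi_apply, LinearMap.comp_apply, Submodule.subtype_apply,
        Pi.zero_apply, phi_apply] at h2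
      exact h2
    by_contra hne
    have hF0 : F ≠ 0 := fun h => hne (Subtype.ext h)
    have h3 : ∀ i : Fin m, (X - C (Λ i)) ^ (r i) ∣ F := by
      intro i
      rw [← le_rootMultiplicity_iff hF0]
      rcases Nat.eq_zero_or_pos (r i) with h | h
      · omega
      · obtain ⟨s, hs⟩ : ∃ s, r i = s + 1 := ⟨r i - 1, by omega⟩
        rw [hs]
        exact lt_rootMultiplicity_of_isRoot_iterate_derivative hF0
          (fun k hk => h1 i k (by omega))
    have h4 : ∏ i : Fin m, (X - C (Λ i)) ^ (r i) ∣ F := by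
      refine Finset.prod_dvd_of_coprime ?_ fun i _ => h3 i
      intro i _ j _ hij
      exact (pairwise_coprime_X_sub_C hΛ hij).pow
    have h5 := natDegree_le_of_dvd h4 hF0
    rw [natDegree_prod _ _ (fun i _ => pow_ne_zero _ (X_sub_C_ne_zero _))] at h5
    simp only [natDegree_pow, natDegree_X_sub_C, mul_one] at h5
    rw [mem_degreeLT, degree_eq_natDegree hF0] at hF
    have h6 : F.natDegree < ∑ i, r i := by exact_mod_cast hF
    omega
  have hs : Function.Surjective (TT Λ (HE r) (∑ i, r i)) :=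
    (LinearMap.injective_iff_surjective_of_finrank_eq_finrank (by
      rw [finrank_degreeLT']; simp [card_HE])).1 hinj
  intro y
  obtain ⟨F, hF⟩ := hs (fun e => y e.1)
  refine ⟨F.1, F.2, fun e he => ?_⟩
  have := congrFun hF ⟨e, he⟩
  simpa [TT] using this

theorem condF_mul [CharZero K] {m n : ℕ} (M : Fin m → Fin (n + 1) → ℕ)
    (hM : ∀ i, IsMultVector (M i)) (Λ : Fin m → K)
    (hΛ : Function.Injective Λ) : CondF M Λ (m * n) := by
  classical
  intro p hp
  let r : Fin m → ℕ := fun i => if i = p.1 then n + 1 else n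
  have hr : ∑ i, r i = m * n + 1 := by
    have h1 : ∀ i, r i = n + (if i = p.1 then 1 else 0) := by
      intro i; simp only [r]; split_ifs <;> rfl
    simp [h1, Finset.sum_add_distrib]
  obtain ⟨F, hF, h⟩ := (hermite' Λ hΛ r) (fun e => if e = (p.1, (p.2 : ℕ)) then 1 else 0)
  rw [hr] at hF
  refine ⟨F, hF, fun e he => ?_, ?_⟩
  · have hlt : (e.2 : ℕ) < n := by
      have h1 := e.2.2
      by_contra hge
      have h2 : e.2 = Fin.last n := Fin.ext (by simp only [Fin.val_last]; omega)
      rw [h2, (hM e.1).1] at he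
      omega
    have hm : ((e.1, (e.2 : ℕ)) : Fin m × ℕ) ∈ HE r := by
      rw [mem_HE]
      simp only [r]
      split_ifs <;> omega
    rw [h _ hm, if_neg]
    intro h2
    simp only [Prod.mk.injEq] at h2
    have h3 : e = p := Prod.ext h2.1 (Fin.ext h2.2)
    rw [h3] at he
    omega
  · have hm : ((p.1, (p.2 : ℕ)) : Fin m × ℕ) ∈ HE r := by
      rw [mem_HE]
      simp only [r, if_true]
      exact p.2.2
    rw [h _ hm, if_pos rfl]
    exact one_ne_zero

theorem span_isLeast' [CharZero K] {m n : ℕ} (M : Fin m → Fin (n + 1) → ℕ)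
    (hM : IsMultMatrix M) (Λ : Fin m → K) (hΛ : Function.Injective Λ) :
    ∃ N, N ≤ max n (m * n) ∧ IsLeast (extDegrees M Λ) N ∧ IsLeast (rankDegrees M Λ) N := by
  obtain ⟨N, h1, h2⟩ := span_isLeast M hM Λ hΛ
  refine ⟨N, ?_, h1, h2⟩
  refine h2.2 ⟨le_max_left _ _, ?_⟩
  rw [← condF_iff]
  rcases Nat.eq_zero_or_pos m with rfl | hm
  · exact fun p => p.1.elim0
  · have h3 : max n (m * n) = m * n := max_eq_right (by nlinarith)
    rw [h3]
    exact condF_mul M hM.1 Λ hΛ

/-- a matrix for which the least degree depends on the points -/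
def exM (m : ℕ) : Fin m → Fin 3 → ℕ := fun i j => if (i : ℕ) < 2 ∧ (j : ℕ) = 0 then 1 else 0

theorem exM_mult (m : ℕ) : IsMultMatrix (n := 2) (exM m) := by
  constructor
  · intro i
    constructor
    · simp [exM]
    · intro j hj
      have h0 : (j : ℕ) = 0 := by
        by_contra h
        simp [exM, h] at hj
      simp only [exM] at hj ⊢
      simp [h0] at hj ⊢
      split_ifs <;> rfl
  · intro j
    by_cases hj : (j : ℕ) = 0
    · have h1 : ∀ i : Fin m, exM m i j = if (i : ℕ) < 2 then 1 else 0 := by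
        intro i; simp [exM, hj]
      rw [Finset.sum_congr rfl fun i _ => h1 i, Finset.sum_boole]
      have h2 : (Finset.univ.filter fun i : Fin m => (i : ℕ) < 2).card ≤ 2 := by
        rw [← Finset.card_image_of_injective (f := fun i : Fin m => (i : ℕ)) _ Fin.val_injective]
        refine (Finset.card_le_card (t := Finset.range 2) ?_).trans (by simp)
        intro x hx
        obtain ⟨i, hi, rfl⟩ := Finset.mem_image.1 hx
        rw [Finset.mem_filter] at hi
        exact Finset.mem_range.2 hi.2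
      simp only [Nat.cast_id]
      omega
    · have h1 : ∀ i : Fin m, exM m i j = 0 := by
        intro i; simp [exM, hj]
      rw [Finset.sum_congr rfl fun i _ => h1 i]
      simp

theorem exM_star (m : ℕ) : starDegree (n := 2) (exM m) ≤ 2 := by
  refine star_le _ _ fun i hi => ?_
  rcases Nat.eq_zero_or_pos i with rfl | h
  · rw [cEnt, zero_add]
    rw [← Finset.card_image_of_injOn (f := fun p : Fin m × Fin 3 => (p.1 : ℕ))]
    · refine (Finset.card_le_card (t := Finset.range 2) ?_).trans (by simp)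
      intro x hx
      obtain ⟨p, hp, rfl⟩ := Finset.mem_image.1 hx
      rw [Finset.mem_filter] at hp
      rw [Finset.mem_range]
      by_contra hlt
      have h2 := hp.2.2
      simp [exM, hlt] at h2
    · intro p hp q hq hpq
      rw [SetLike.mem_coe, Finset.mem_filter] at hp hq
      have h1 : (p.2 : ℕ) = 0 := by
        by_contra h
        have := hp.2.2
        simp [exM, h] at this
      have h2 : (q.2 : ℕ) = 0 := by
        by_contra h
        have := hq.2.2
        simp [exM, h] at this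
      exact Prod.ext (Fin.ext hpq) (Fin.ext (by rw [h1, h2]))
  · have h1 : cEnt (n := 2) (exM m) i = 0 := by
      rw [cEnt, Finset.card_eq_zero, Finset.filter_eq_empty_iff]
      rintro p - ⟨h1, h2⟩
      have h3 : (p.2 : ℕ) ≠ 0 := by omega
      simp [exM, h3] at h2
    omega

theorem depends [CharZero K] (m : ℕ) (hm : 3 ≤ m) :
    ∃ M : Fin m → Fin 3 → ℕ, IsMultMatrix (n := 2) M ∧ ∃ Λ : Fin m → K, Function.Injective Λ ∧
      ¬ IsLeast (extDegrees (n := 2) M Λ) (starDegree (n := 2) M) := by
  refine ⟨exM m, exM_mult m, ?_⟩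
  -- points: 0 ↦ -1, 1 ↦ 1, 2 ↦ 0, i ↦ i for i ≥ 3
  let Λ : Fin m → K := fun i => (((if (i : ℕ) = 0 then -1 else if (i : ℕ) = 1 then 1 else
    if (i : ℕ) = 2 then 0 else ((i : ℕ) : ℤ)) : ℤ) : K)
  refine ⟨Λ, ?_, ?_⟩
  · intro i j hij
    simp only [Λ] at hij
    have h := Int.cast_injective hij
    apply Fin.ext
    split_ifs at h <;> omega
  · rintro ⟨⟨F, ⟨hF0, hF2, hF⟩, hd⟩, -⟩
    have hdeg : F.natDegree = 2 := by
      have := exM_star m
      omega
    have hroot : ∀ i : Fin m, (i : ℕ) < 2 → F.IsRoot (Λ i) := by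
      intro i hi
      have h1 := hF i 0
      have h2 : exM m i 0 = 1 := by simp [exM, hi]
      rw [h2] at h1
      have h3 : 0 < F.rootMultiplicity (Λ i) := by
        simpa using (h1 ▸ Nat.one_pos : 0 < (derivative^[((0 : Fin 3) : ℕ)] F).rootMultiplicity (Λ i))
      exact (rootMultiplicity_pos hF0).1 h3
    have hF' : F = C (F.coeff 2) * X ^ 2 + C (F.coeff 1) * X + C (F.coeff 0) :=
      eq_quadratic_of_degree_le_two (degree_le_of_natDegree_le (n := 2) (le_of_eq hdeg))
    have h0 := hroot ⟨0, by omega⟩ (by simp)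
    have h1 := hroot ⟨1, by omega⟩ (by simp)
    rw [IsRoot.def, hF'] at h0 h1
    simp [Λ] at h0 h1
    have hc1 : F.coeff 1 = 0 := by
      have h2 : (2 : K) * F.coeff 1 = 0 := by linear_combination h1 - h0
      rcases mul_eq_zero.1 h2 with h | h
      · exact absurd h two_ne_zero
      · exact h
    have h2 := hF ⟨2, by omega⟩ 1
    have h3 : exM m ⟨2, by omega⟩ 1 = 0 := by simp [exM]
    rw [h3, rootMultiplicity_eq_zero_iff] at h2
    have hz := h2 (by
      rw [IsRoot.def, hF']
      simp [Λ, hc1])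
    exact iterate_ne_zero hF0 (by rw [hdeg]; decide) hz

end Pool.Agent.R194.XD
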